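import Pool.Agent.Helper93.L2.Main

/-!
# MP_730da0_ag: Q1 holds for `k - 1` not a prime power and `n = k` modulo `k (k-1)`, `n > k`

`k > 4`, `k - 1` is not a prime power, `n > k` is congruent to `k` modulo `k (k-1)`: every holomorphic map
`G_k^0 → G_n^0` is splittable.
-/

namespace Pool.Agent.Results.MP_730da0_ag.PointClass

open Pool.Agent.Helper2.LN

/-- Let `k > 4`, `k - 1` not a prime power, `n > k` congruent to `k` modulo `k (k-1)`. Then every holomorphic
map `f : G_k^0 → G_n^0` is splittable: `f` is homotopic to `h ∘ d_k` for a continuous `h : ℂ^* → G_n^0`. -/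
theorem result (k n : ℕ) (hk : 4 < k) (hpp : ¬ IsPrimePow (k - 1)) (hkn : k < n)
    (hn : n ≡ k [MOD k * (k - 1)]) (f : C(G0 k, G0 n)) (hf : Holo f) : Splittable f :=
  Pool.Agent.Helper93.L2.point_class hk hpp hkn hn f hf

end Pool.Agent.Results.MP_730da0_ag.PointClass
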