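import Pool.Agent.Helper93.L3.Split

/-!
# MP_730da0_ag: roots of `f` which are single valued functions of the ordered roots

`n > k > 4`, `f : G_k^0 → G_n^0` holomorphic. A continuous choice of a root of `p_(f(z))` as a function of the
ordered roots of `p_z` is invariant under all even permutations of the roots of `p_z`. If all roots of `p_(f(z))` are
such functions (that is, `f_*` maps the pure braid group of `B(k)` to the pure braid group of `B(n)`), then `f` is
splittable.
-/

namespace Pool.Agent.Results.MP_730da0_ag.PureRoots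

open Pool.Agent.Helper2.LN Polynomial

/-- Ordered systems of `k` different roots with sum `0`. -/
def OrdRoots (k : ℕ) : Set (Fin k → ℂ) := {q | Function.Injective q ∧ ∑ i, q i = 0}

/-- `r` is continuous on the ordered root systems and `r q` is a root of `p_(f(z))` for the `z` with roots `q`. -/
def RootFun {k n : ℕ} (f : C(G0 k, G0 n)) (r : (Fin k → ℂ) → ℂ) : Prop :=
  ContinuousOn r (OrdRoots k) ∧ ∀ q ∈ OrdRoots k, ∀ z : G0 k,
    pol k (z : Fin (k - 1) → ℂ) = ∏ i, (X - C (q i)) → (pol n (f z : Fin (n - 1) → ℂ)).eval (r q) = 0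

private theorem centre_sum {k : ℕ} (hk : 2 ≤ k) (q : Fin k → ℂ) : ∑ i, (q i - mean q) = 0 := by
  have hk0 : (k : ℂ) ≠ 0 := by
    have : k ≠ 0 := by omega
    exact_mod_cast this
  rw [Finset.sum_sub_distrib, Finset.sum_const, Finset.card_univ, Fintype.card_fin]
  unfold mean
  rw [nsmul_eq_mul]
  field_simp
  ring

private theorem centre_mem {k : ℕ} (hk : 2 ≤ k) (q : Fin k → ℂ) (hq : q ∈ Conf k) :
    (fun i => q i - mean q) ∈ OrdRoots k :=
  ⟨fun i j hij => hq (sub_left_injective hij), centre_sum hk q⟩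

private theorem centre_cont {k : ℕ} : Continuous fun (q : Fin k → ℂ) (i : Fin k) => q i - mean q := by
  unfold mean
  fun_prop

private theorem rootFun_ext {k n : ℕ} (hk : 2 ≤ k) (f : C(G0 k, G0 n)) (r : (Fin k → ℂ) → ℂ)
    (hr : RootFun f r) : ContinuousOn (fun q => r fun i => q i - mean q) (Conf k) ∧
      ∀ q ∈ Conf k, (fun q => r fun i => q i - mean q) q ∈ rootF f q := by
  refine ⟨hr.1.comp centre_cont.continuousOn fun q hq => centre_mem hk q hq, ?_⟩
  intro q hq
  have h1 : cf q ∈ G0 k := (cf_mem_G0 hk q).2 hq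
  refine ⟨h1, ?_⟩
  exact hr.2 _ (centre_mem hk q hq) ⟨cf q, h1⟩ (pol_cf hk q)

private theorem mean_zero {k : ℕ} (q : Fin k → ℂ) (hq : q ∈ OrdRoots k) : mean q = 0 := by
  unfold mean
  rw [hq.2]
  simp

/-- Let `n > k > 4` and let `f : G_k^0 → G_n^0` be holomorphic. Every root of `p_(f(z))` which is a continuous function
of the ordered roots of `p_z` is invariant under the even permutations of these roots; and if all `n` roots of
`p_(f(z))` are continuous functions of the ordered roots of `p_z`, then `f` is splittable. -/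
theorem result (k n : ℕ) (hk : 4 < k) (hkn : k < n) (f : C(G0 k, G0 n)) (hf : Holo f) :
    (∀ r : (Fin k → ℂ) → ℂ, RootFun f r → ∀ σ : Equiv.Perm (Fin k), Equiv.Perm.sign σ = 1 →
      ∀ q ∈ OrdRoots k, r (q ∘ σ) = r q) ∧
    ((∃ R : Fin n → (Fin k → ℂ) → ℂ, (∀ j, RootFun f (R j)) ∧
      ∀ q ∈ OrdRoots k, Function.Injective fun j => R j q) → Splittable f) := by
  have hk2 : 2 ≤ k := by omega
  constructor
  · intro r hr σ hσ q hq
    obtain ⟨h1, h2⟩ := rootFun_ext hk2 f r hr
    have h3 := Pool.Agent.Helper93.L3.pure_root hk hkn f hf _ h1 h2 σ hσ q hq.1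
    have h4 : mean q = 0 := mean_zero q hq
    have h5 : mean (q ∘ σ) = 0 := by
      refine mean_zero _ ⟨hq.1.comp σ.injective, ?_⟩
      rw [← hq.2]
      exact Equiv.sum_comp σ q
    have h6 : (fun i => (q ∘ σ) i - mean (q ∘ σ)) = q ∘ σ := by
      funext i
      rw [h5, sub_zero]
    have h7 : (fun i => q i - mean q) = q := by
      funext i
      rw [h4, sub_zero]
    have h8 : (r fun i => (q ∘ σ) i - mean (q ∘ σ)) = r fun i => q i - mean q := h3
    rw [h6, h7] at h8
    exact h8
  · rintro ⟨R, hR, hinj⟩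
    exact Pool.Agent.Helper93.L3.pure_splittable hk hkn f hf (fun j q => R j fun i => q i - mean q)
      (fun j => (rootFun_ext hk2 f (R j) (hR j)).1) (fun j => (rootFun_ext hk2 f (R j) (hR j)).2)
      (fun q hq => hinj _ (centre_mem hk2 q hq))

end Pool.Agent.Results.MP_730da0_ag.PureRoots
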