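import Pool.Agent.Helper2.LN.RootSecK
import Pool.Agent.Helper2.LN.GhatConn
import Pool.Agent.Helper2.LN.LogLemma
import Pool.Agent.Helper93.LN.FHom

/-!
# MP_730da0_ag: Q1 holds for `k` not a prime power and `n = (k-1)^2` modulo `k (k-1)`

`k > 4` is not a prime power, `n` is congruent to `(k-1)^2` modulo `k (k-1)`: every holomorphic map
`G_k^0 → G_n^0` is splittable.
-/

namespace Pool.Agent.Results.MP_730da0_ag.SquareClass

open Pool.Agent.Helper2.LN Pool.Agent.Helper93.LN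

/-- Let `k > 4` be not a prime power and `n` congruent to `(k-1)^2` modulo `k (k-1)`. Then every holomorphic
map `f : G_k^0 → G_n^0` is splittable: `f` is homotopic to `h ∘ d_k` for a continuous `h : ℂ^* → G_n^0`. -/
theorem result (k n : ℕ) (hk : 4 < k) (hpp : ¬ IsPrimePow k)
    (hn : n ≡ (k - 1) ^ 2 [MOD k * (k - 1)]) (f : C(G0 k, G0 n)) (hf : Holo f) : Splittable f := by
  obtain ⟨m, rfl⟩ : ∃ m, k = m + 1 := ⟨k - 1, by omega⟩
  simp only [Nat.add_sub_cancel] at hn
  have h2 : m ∣ n := by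
    have h := hn.of_mul_left (m + 1)
    have h' : n ≡ 0 [MOD m] := h.trans ((Nat.modEq_zero_iff_dvd).2 (Dvd.intro_left _ (pow_two m).symm))
    exact (Nat.modEq_zero_iff_dvd).1 h'
  have h1 : n ≡ 1 [MOD (m + 1)] := by
    have h := hn.of_mul_right m
    refine h.trans ?_
    have h4 : (m ^ 2 : ℕ) ≡ 1 [MOD (m + 1)] := by
      have h5 : m ^ 2 = 1 + (m + 1) * (m - 1) := by
        obtain ⟨j, rfl⟩ : ∃ j, m = j + 1 := ⟨m - 1, by omega⟩
        simp only [Nat.add_sub_cancel]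
        ring
      rw [h5]
      have h7 : (m + 1) * (m - 1) ≡ 0 [MOD (m + 1)] :=
        (Nat.modEq_zero_iff_dvd).2 (Dvd.intro _ rfl)
      simp
    exact h4
  have hn3 : 3 ≤ n := by
    have hn0 : n ≠ 0 := by
      rintro rfl
      have h6 : (0 : ℕ) % (m + 1) = 1 % (m + 1) := h1
      rw [Nat.zero_mod, Nat.mod_eq_of_lt (by omega)] at h6
      omega
    have := Nat.le_of_dvd (by omega) h2
    omega
  obtain ⟨F, hF, hfF⟩ := hf
  have hk2 : 2 ≤ m + 1 := by omega
  obtain ⟨S⟩ := exists_rootSec hk hpp hn3 h1 (by simpa using h2) f ⟨F, hF, hfF⟩ F hfF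
  have hne : (Ghat (m + 1)).Nonempty := by
    have hbase : base (m + 1) ∈ Conf (m + 1) :=
      Gen_subset_Conf _ (Ord_subset_Gen _ (base_mem_Ord _))
    exact ⟨_, Ghat_of_Y hk2 (base (m + 1), Complex.log (Dsc (base (m + 1))))
      ⟨hbase, Complex.exp_log ((Dsc_ne_zero _).2 hbase)⟩⟩
  exact splittable_of_rootSec hk2 hn3 hne (Ghat_preconnected hk2) (logProp hk) f hF hfF S

end Pool.Agent.Results.MP_730da0_ag.SquareClass
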